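import Pool.Agent.H37.CNV.Stmts
import Pool.Agent.H40.CNU.UNB

/-!
# Row `VB2` of the board `cnv`: `p`-subgroups inside the Borel group of `SU_3(q)`
-/

set_option autoImplicit false

namespace Pool.CND

open Finset Matrix

section

variable {F : Type} [Field F] {σ : F →+* F}

theorem vb2_mul (g h : SU3 σ) (i j : Fin 3) : (g * h).1.1 i j =
    g.1.1 i 0 * h.1.1 0 j + g.1.1 i 1 * h.1.1 1 j + g.1.1 i 2 * h.1.1 2 j := by
  show (g.1.1 * h.1.1) i j = _
  rw [Matrix.mul_apply, Fin.sum_univ_three]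

theorem vb2_one (i j : Fin 3) : ((1 : SU3 σ)).1.1 i j = if i = j then 1 else 0 := by
  show (1 : Matrix (Fin 3) (Fin 3) F) i j = _
  rw [Matrix.one_apply]

theorem vb2_ext (g h : SU3 σ) (H : ∀ i j, g.1.1 i j = h.1.1 i j) : g = h := by
  apply Subtype.ext
  apply Subtype.ext
  ext i j
  exact H i j

theorem vb2_pow (g : SU3 σ) (h1 : g.1.1 1 0 = 0) (h2 : g.1.1 2 0 = 0) (m : ℕ) :
    (g ^ m).1.1 1 0 = 0 ∧ (g ^ m).1.1 2 0 = 0 ∧ (g ^ m).1.1 0 0 = g.1.1 0 0 ^ m := by
  induction m with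
  | zero =>
    rw [pow_zero, pow_zero, vb2_one, vb2_one, vb2_one]
    simp
  | succ m ih =>
    obtain ⟨a, b, c⟩ := ih
    rw [pow_succ, vb2_mul, vb2_mul, vb2_mul, a, b, c, h1, h2, pow_succ]
    simp

/-- unipotent elements -/
structure Vb2U (q : ℕ) (x : SU3 σ) : Prop where
  a10 : x.1.1 1 0 = 0
  a20 : x.1.1 2 0 = 0
  a21 : x.1.1 2 1 = 0
  a00 : x.1.1 0 0 = 1
  a11 : x.1.1 1 1 = 1
  a22 : x.1.1 2 2 = 1
  a01 : x.1.1 0 1 = x.1.1 1 2 ^ q

theorem vb2_u (q : ℕ) (hq : 1 ≤ q) (hσ : ∀ a, σ a = a ^ q) (x : SU3 σ) (h1 : x.1.1 1 0 = 0)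
    (h2 : x.1.1 2 0 = 0) (h3 : x.1.1 0 0 = 1) : Vb2U q x := by
  obtain ⟨h21, h00, h11, h22, h01, _⟩ := unb_shape q hq σ hσ x h1 h2
  rw [h3, one_pow, mul_one] at h11 h22
  rw [h3, h11, one_pow, mul_one, one_mul] at h01
  exact ⟨h1, h2, h21, h3, h11, h22, h01.symm⟩

theorem vb2_comm_iff (q : ℕ) {x y : SU3 σ} (hx : Vb2U q x) (hy : Vb2U q y) :
    x * y = y * x ↔ x.1.1 1 2 ^ q * y.1.1 1 2 = y.1.1 1 2 ^ q * x.1.1 1 2 := by
  constructor
  · intro h
    have e : (x * y).1.1 0 2 = (y * x).1.1 0 2 := by rw [h]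
    rw [vb2_mul, vb2_mul, hx.a00, hx.a01, hx.a22, hy.a00, hy.a01, hy.a22] at e
    linear_combination e
  · intro h
    apply vb2_ext
    intro i j
    rw [vb2_mul, vb2_mul]
    fin_cases i <;> fin_cases j <;>
      simp only [Fin.zero_eta, Fin.mk_one, Fin.reduceFinMk, Fin.isValue] <;>
      simp only [hx.a00, hx.a01, hx.a22, hx.a11, hx.a10, hx.a20, hx.a21, hy.a00, hy.a01, hy.a22,
        hy.a11, hy.a10, hy.a20, hy.a21] <;> ring_nf
    linear_combination h

/-- unipotent elements with the same entries `12` and `02` agree -/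
theorem vb2_eq (q : ℕ) {x y : SU3 σ} (hx : Vb2U q x) (hy : Vb2U q y)
    (h12 : x.1.1 1 2 = y.1.1 1 2) (h02 : x.1.1 0 2 = y.1.1 0 2) : x = y := by
  apply vb2_ext
  intro i j
  fin_cases i <;> fin_cases j <;>
    simp only [Fin.zero_eta, Fin.mk_one, Fin.reduceFinMk, Fin.isValue] <;>
    simp only [hx.a00, hx.a01, hx.a22, hx.a11, hx.a10, hx.a20, hx.a21, hy.a00, hy.a01, hy.a22,
        hy.a11, hy.a10, hy.a20, hy.a21, h12, h02]

theorem vb2_mulU (q : ℕ) (hq : 1 ≤ q) (hσ : ∀ a, σ a = a ^ q) {x y : SU3 σ} (hx : Vb2U q x)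
    (hy : Vb2U q y) : Vb2U q (x * y) := by
  apply vb2_u q hq hσ
  · rw [vb2_mul, hx.a10, hy.a10, hy.a20]
    ring
  · rw [vb2_mul, hx.a20, hy.a10, hy.a20]
    ring
  · rw [vb2_mul, hx.a00, hy.a00, hy.a10, hy.a20]
    ring

theorem vb2_12 (q : ℕ) {x y : SU3 σ} (hx : Vb2U q x) (hy : Vb2U q y) :
    (x * y).1.1 1 2 = x.1.1 1 2 + y.1.1 1 2 := by
  rw [vb2_mul, hx.a10, hx.a11, hy.a22]
  ring

theorem vb2_02 (q : ℕ) {x y : SU3 σ} (hx : Vb2U q x) (hy : Vb2U q y) :
    (x * y).1.1 0 2 = x.1.1 0 2 + y.1.1 0 2 + x.1.1 1 2 ^ q * y.1.1 1 2 := by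
  rw [vb2_mul, hx.a00, hx.a01, hy.a22]
  ring

/-- conjugation, entry `12` -/
theorem vb2_conj12 (q : ℕ) {g x y : SU3 σ} (hx : Vb2U q x) (hy : Vb2U q y)
    (hg1 : g.1.1 1 0 = 0) (h : y * g = g * x) :
    y.1.1 1 2 * g.1.1 2 2 = g.1.1 1 1 * x.1.1 1 2 := by
  have e : (y * g).1.1 1 2 = (g * x).1.1 1 2 := by rw [h]
  rw [vb2_mul, vb2_mul, hy.a10, hy.a11, hg1, hx.a22] at e
  linear_combination e

/-- conjugation, entry `02`, if the entry `12` vanishes -/
theorem vb2_conj02 (q : ℕ) (hq : q ≠ 0) {g x y : SU3 σ} (hx : Vb2U q x) (hy : Vb2U q y)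
    (hx0 : x.1.1 1 2 = 0) (hy0 : y.1.1 1 2 = 0) (h : y * g = g * x) :
    y.1.1 0 2 * g.1.1 2 2 = g.1.1 0 0 * x.1.1 0 2 := by
  have e : (y * g).1.1 0 2 = (g * x).1.1 0 2 := by rw [h]
  have h1 : y.1.1 0 1 = 0 := by rw [hy.a01, hy0, zero_pow hq]
  rw [vb2_mul, vb2_mul, hy.a00, h1, hx0, hx.a22] at e
  linear_combination e

end

theorem vb2_thm (hUNB : S_UNB) : S_VB2 := by
  intro p F _ f q σ hp hf hq hF hσ W I C n hI hCW hWI hW hIW hIC hWC hpn hcard
  classical
  have hq2 : 2 ≤ q := by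
    rw [hq]
    exact le_trans hp.two_le (Nat.le_self_pow (by omega) p)
  have hq1 : 1 ≤ q := by omega
  have hq0 : q ≠ 0 := by omega
  have hfin : Finite F := by
    apply Nat.finite_of_card_ne_zero
    rw [hF]
    positivity
  have := Fintype.ofFinite F
  have hqq : ∀ z : F, (z ^ q) ^ q = z := by
    intro z
    have h := FiniteField.pow_card z
    rw [← Nat.card_eq_fintype_card, hF, pow_two, pow_mul] at h
    exact h
  have hadd : ∀ a b : F, (a + b) ^ q = a ^ q + b ^ q := by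
    intro a b
    rw [← hσ, map_add, hσ, hσ]
  obtain ⟨r, hr⟩ := hW
  -- the elements of W are unipotent
  have hWU : ∀ w ∈ W, Vb2U q w := by
    intro w hw
    obtain ⟨h1, h2⟩ := hI w (hWI hw)
    apply vb2_u q hq1 hσ w h1 h2
    have h3 : w ^ (p ^ r) = 1 := by
      have h4 : (⟨w, hw⟩ : W) ^ Nat.card W = 1 := pow_card_eq_one'
      rw [hr] at h4
      exact congrArg Subtype.val h4
    have h5 : w.1.1 0 0 ^ (p ^ r) = 1 := by
      rw [← (vb2_pow w h1 h2 (p ^ r)).2.2, h3, vb2_one]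
      simp
    have h6 : w.1.1 0 0 ^ (q ^ 2) ^ r = w.1.1 0 0 := by
      have h7 := FiniteField.pow_card_pow r (w.1.1 0 0)
      rw [← Nat.card_eq_fintype_card, hF] at h7
      exact h7
    have h8 : p ^ r ∣ (q ^ 2) ^ r := by
      apply pow_dvd_pow_of_dvd
      rw [hq, ← pow_mul]
      exact dvd_pow_self p (by omega)
    obtain ⟨m, hm⟩ := h8
    rw [← h6, hm, pow_mul, h5, one_pow]
  constructor
  · -- the abelian subgroup
    let ψ : W →* Multiplicative F :=
      { toFun := fun w => Multiplicative.ofAdd (w.1.1.1 1 2 ^ q - w.1.1.1 1 2)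
        map_one' := by
          show Multiplicative.ofAdd ((1 : SU3 σ).1.1 1 2 ^ q - (1 : SU3 σ).1.1 1 2) = 1
          rw [vb2_one]
          simp [hq0]
        map_mul' := by
          intro x y
          show Multiplicative.ofAdd ((x.1 * y.1).1.1 1 2 ^ q - (x.1 * y.1).1.1 1 2) = _
          rw [vb2_12 q (hWU _ x.2) (hWU _ y.2), hadd, ← ofAdd_add]
          congr 1
          ring }
    have hψ : ∀ w : W, ψ w = 1 ↔ w.1.1.1 1 2 ^ q = w.1.1.1 1 2 := by
      intro w
      show Multiplicative.ofAdd (w.1.1.1 1 2 ^ q - w.1.1.1 1 2) = 1 ↔ _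
      rw [ofAdd_eq_one, sub_eq_zero]
    have hTadd : ∀ a b : F, a ^ q + a = 0 → b ^ q + b = 0 → (a + b) ^ q + (a + b) = 0 := by
      intro a b ha hb
      rw [hadd]
      linear_combination ha + hb
    let T : Subgroup (Multiplicative F) :=
      { carrier := {z | (Multiplicative.toAdd z) ^ q + Multiplicative.toAdd z = 0}
        mul_mem' := by
          intro a b ha hb
          exact hTadd _ _ ha hb
        one_mem' := by
          show (0 : F) ^ q + 0 = 0
          rw [zero_pow hq0, add_zero]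
        inv_mem' := by
          intro a ha
          show (-(Multiplicative.toAdd a)) ^ q + -(Multiplicative.toAdd a) = 0
          have ha' : (Multiplicative.toAdd a) ^ q + Multiplicative.toAdd a = 0 := ha
          rw [← hσ, map_neg, hσ]
          linear_combination -ha' }
    have hT : Nat.card T = q := by
      have h := unb_tr p F f q σ hp hf hq hF hσ 0 (zero_pow hq0)
      rw [← h]
      rfl
    have hrange : ψ.range ≤ T := by
      rintro _ ⟨w, rfl⟩
      show (w.1.1.1 1 2 ^ q - w.1.1.1 1 2) ^ q + (w.1.1.1 1 2 ^ q - w.1.1.1 1 2) = 0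
      rw [← hσ (w.1.1.1 1 2 ^ q - w.1.1.1 1 2), map_sub, hσ, hσ, hqq]
      ring
    have hdvd : Nat.card ψ.range ∣ q := by
      rw [← hT]
      exact Subgroup.card_dvd_of_le hrange
    obtain ⟨d, hd, hd2⟩ := (Nat.dvd_prime_pow hp).1 (hq ▸ hdvd)
    refine ⟨ψ.ker.map W.subtype, d, ?_, ?_, ?_, ?_⟩
    · rintro _ ⟨w, _, rfl⟩
      exact w.2
    · rintro _ ⟨x, hx, rfl⟩ _ ⟨y, hy, rfl⟩
      have hx' := (hψ x).1 hx
      have hy' := (hψ y).1 hy
      show x.1 * y.1 = y.1 * x.1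
      rw [vb2_comm_iff q (hWU _ x.2) (hWU _ y.2), hx', hy']
      exact mul_comm _ _
    · rw [hq]
      exact pow_dvd_pow p hd
    · rw [← hd2, Subgroup.card_map_of_injective W.subtype_injective,
        ← Subgroup.index_ker, Subgroup.index_mul_card]
  · intro g hg x hx
    obtain ⟨hg1, hg2⟩ := hI g hg
    have hxU : Vb2U q x := hWU x (hCW hx)
    obtain ⟨h1, h2, h3⟩ := vb2_pow g hg1 hg2 (q - 1)
    set h : SU3 σ := g ^ (q - 1) with hh
    have hhI : h ∈ I := I.pow_mem hg _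
    obtain ⟨hg21, hg00, hg11, hg22, hg01, _⟩ := unb_shape q hq1 σ hσ g hg1 hg2
    obtain ⟨hh21, hh00, hh11, hh22, hh01, _⟩ := unb_shape q hq1 σ hσ h h1 h2
    have hA1 : g.1.1 0 0 ^ (q - 1) * g.1.1 0 0 = g.1.1 0 0 ^ q := by
      rw [← pow_succ, Nat.sub_add_cancel hq1]
    have hhq : h.1.1 0 0 ^ q * h.1.1 0 0 = 1 := by
      rw [h3]
      have e1 : g.1.1 0 0 * ((g.1.1 0 0 ^ (q - 1)) ^ q * g.1.1 0 0 ^ (q - 1)) =
          g.1.1 0 0 * 1 := by
        calc g.1.1 0 0 * ((g.1.1 0 0 ^ (q - 1)) ^ q * g.1.1 0 0 ^ (q - 1))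
            = (g.1.1 0 0 ^ (q - 1)) ^ q * (g.1.1 0 0 ^ (q - 1) * g.1.1 0 0) := by ring
          _ = (g.1.1 0 0 ^ (q - 1) * g.1.1 0 0) ^ q := by rw [mul_pow, hA1]
          _ = g.1.1 0 0 * 1 := by rw [hA1, hqq, mul_one]
      exact mul_left_cancel₀ hg00 e1
    have hh22' : h.1.1 2 2 = h.1.1 0 0 := by
      have e1 : h.1.1 0 0 ^ q ≠ 0 := pow_ne_zero _ hh00
      apply mul_right_cancel₀ e1
      rw [hh22]
      exact hhq.symm.trans (mul_comm _ _)
    -- h acts trivially on Z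
    have hZ : ∀ z : SU3 σ, Vb2U q z → z.1.1 1 2 = 0 → h * z = z * h := by
      intro z hz hz0
      have hz1 : z.1.1 0 1 = 0 := by rw [hz.a01, hz0, zero_pow hq0]
      apply vb2_ext
      intro i j
      rw [vb2_mul, vb2_mul]
      fin_cases i <;> fin_cases j <;>
        simp only [Fin.zero_eta, Fin.mk_one, Fin.reduceFinMk, Fin.isValue] <;>
        simp only [hz.a00, hz1, hz0, hz.a22, hz.a11, hz.a10, hz.a20, hz.a21, h1, h2, hh21,
          hh22'] <;> ring_nf
    by_cases hx0 : x.1.1 1 2 = 0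
    · exact hZ x hxU hx0
    -- the quotient of the diagonal entries of g
    have hyC : g * x * g⁻¹ ∈ C := hIC g hg x hx
    have hyU : Vb2U q (g * x * g⁻¹) := hWU _ (hCW hyC)
    have hy1 := vb2_conj12 q hxU hyU hg1 (by group : g * x * g⁻¹ * g = g * x)
    have hcomm := hWC _ (hCW hyC) x hx
    rw [vb2_comm_iff q hyU hxU] at hcomm
    have hg22' : g.1.1 2 2 ≠ 0 := by
      intro e
      rw [e, zero_mul] at hg22
      exact zero_ne_one hg22
    set y := g * x * g⁻¹ with hy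
    obtain ⟨α, hα⟩ : ∃ α, α = g.1.1 1 1 / g.1.1 2 2 := ⟨_, rfl⟩
    have hyα : y.1.1 1 2 = α * x.1.1 1 2 := by
      rw [hα]
      field_simp
      linear_combination hy1
    have hαq : α ^ q = α := by
      rw [hyα, mul_pow] at hcomm
      have e1 : x.1.1 1 2 ^ q * x.1.1 1 2 ≠ 0 := mul_ne_zero (pow_ne_zero _ hx0) hx0
      apply mul_right_cancel₀ e1
      linear_combination hcomm
    have hg11' : g.1.1 1 1 = g.1.1 0 0 ^ (q - 1) := by
      apply mul_right_cancel₀ hg00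
      rw [hg11, hA1]
    have hα0 : α ≠ 0 := by
      rw [hα, hg11']
      exact div_ne_zero (pow_ne_zero _ hg00) hg22'
    have hα1 : α ^ (q - 1) = 1 := by
      apply mul_right_cancel₀ hα0
      rw [← pow_succ, Nat.sub_add_cancel hq1, hαq, one_mul]
    have hαa : α = g.1.1 0 0 ^ (q - 1) * g.1.1 0 0 ^ q := by
      rw [hα, hg11', div_eq_iff hg22', mul_assoc, mul_comm (g.1.1 0 0 ^ q), hg22, mul_one]
    have hB1 : h.1.1 0 0 ^ (q - 1) * h.1.1 0 0 = h.1.1 0 0 ^ q := by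
      rw [← pow_succ, Nat.sub_add_cancel hq1]
    have hh11' : h.1.1 1 1 = h.1.1 0 0 ^ (q - 1) := by
      apply mul_right_cancel₀ hh00
      rw [hh11, hB1]
    have hh1122 : h.1.1 1 1 = h.1.1 2 2 := by
      have e1 : h.1.1 0 0 ^ q ≠ 0 := pow_ne_zero _ hh00
      apply mul_right_cancel₀ e1
      rw [hh22, hh11', h3]
      refine Eq.trans ?_ hα1
      rw [hαa, mul_pow]
      ring
    have hy'C : h * x * h⁻¹ ∈ C := hIC h hhI x hx
    have hy'U : Vb2U q (h * x * h⁻¹) := hWU _ (hCW hy'C)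
    have hy'1 := vb2_conj12 q hxU hy'U h1 (by group : h * x * h⁻¹ * h = h * x)
    have hh22ne : h.1.1 2 2 ≠ 0 := by
      rw [hh22']
      exact hh00
    have hy'2 : (h * x * h⁻¹).1.1 1 2 = x.1.1 1 2 := by
      rw [hh1122] at hy'1
      apply mul_left_cancel₀ hh22ne
      rw [← hy'1, mul_comm]
    obtain ⟨z, hz⟩ : ∃ z, z = h * x * h⁻¹ * x⁻¹ := ⟨_, rfl⟩
    have hzC : z ∈ C := by
      rw [hz]
      exact C.mul_mem hy'C (C.inv_mem hx)
    have hzU : Vb2U q z := hWU _ (hCW hzC)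
    have hzx : z * x = h * x * h⁻¹ := by rw [hz]; group
    have hz0 : z.1.1 1 2 = 0 := by
      have e1 := vb2_12 q hzU hxU
      rw [hzx, hy'2] at e1
      linear_combination -e1
    have hhz := hZ z hzU hz0
    have hind : ∀ m : ℕ, h ^ m * x = z ^ m * x * h ^ m := by
      intro m
      induction m with
      | zero => simp
      | succ m ih =>
        have e1 : h ^ m * z = z * h ^ m := (Commute.pow_left (show Commute h z from hhz) m).eq
        have e2 : h * x = z * x * h := by rw [hzx]; group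
        calc h ^ (m + 1) * x = h ^ m * (h * x) := by rw [pow_succ, mul_assoc]
          _ = h ^ m * z * x * h := by rw [e2]; group
          _ = z * (h ^ m * x) * h := by rw [e1]; group
          _ = z * (z ^ m * x * h ^ m) * h := by rw [ih]
          _ = z ^ (m + 1) * x * h ^ (m + 1) := by rw [pow_succ' z, pow_succ h]; group
    have hzm : ∀ m : ℕ, (z ^ m).1.1 1 2 = 0 ∧ (z ^ m).1.1 0 2 = m * z.1.1 0 2 := by
      intro m
      induction m with
      | zero =>
        rw [pow_zero, vb2_one, vb2_one]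
        simp
      | succ m ih =>
        have e1 : Vb2U q (z ^ m) := hWU _ (hCW (C.pow_mem hzC m))
        rw [pow_succ, vb2_12 q e1 hzU, vb2_02 q e1 hzU, ih.1, ih.2, hz0]
        constructor
        · ring
        · push_cast
          ring
    have hzq : z ^ (q ^ 2) = 1 := by
      have e1 : Vb2U q (z ^ (q ^ 2)) := hWU _ (hCW (C.pow_mem hzC _))
      have e2 : Vb2U q (1 : SU3 σ) := hWU _ W.one_mem
      apply vb2_eq q e1 e2
      · rw [(hzm _).1, vb2_one]
        simp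
      · rw [(hzm _).2, vb2_one, ← hF, Nat.card_eq_fintype_card, Nat.cast_card_eq_zero, zero_mul]
        simp
    have hm1 : h ^ (q ^ 2) ∈ Subgroup.centralizer {x} := by
      rw [Subgroup.mem_centralizer_singleton_iff]
      have e1 := hind (q ^ 2)
      rw [hzq, one_mul] at e1
      exact e1
    -- g ^ n lies in W
    have hgn : g ^ n ∈ W := by
      have hfinW : Nat.card W ≠ 0 := by
        rw [hr]
        exact pow_ne_zero _ hp.ne_zero
      have hnorm : (W.subgroupOf I).Normal := by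
        refine ⟨fun w hw g => ?_⟩
        rw [Subgroup.mem_subgroupOf] at hw ⊢
        exact hIW g.1 g.2 w.1 hw
      have hind : (W.subgroupOf I).index = n := by
        have e1 := Subgroup.card_mul_index (W.subgroupOf I)
        have e2 : Nat.card (W.subgroupOf I) = Nat.card W :=
          Nat.card_congr (Subgroup.subgroupOfEquivOfLe hWI).toEquiv
        rw [e2, hcard, mul_comm n] at e1
        exact Nat.eq_of_mul_eq_mul_left (Nat.pos_of_ne_zero hfinW) e1
      have e3 := Subgroup.pow_index_mem (W.subgroupOf I) (⟨g, hg⟩ : I)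
      rw [hind, Subgroup.mem_subgroupOf] at e3
      exact e3
    have hm2 : h ^ n ∈ Subgroup.centralizer {x} := by
      have e1 : g ^ n ∈ Subgroup.centralizer {x} := by
        rw [Subgroup.mem_centralizer_singleton_iff]
        exact hWC _ hgn x hx
      have e2 : h ^ n = (g ^ n) ^ (q - 1) := by
        rw [hh, ← pow_mul, ← pow_mul, mul_comm]
      rw [e2]
      exact Subgroup.pow_mem _ e1 _
    have hcop : Nat.Coprime (q ^ 2) n := by
      rw [hq, ← pow_mul]
      exact Nat.Coprime.pow_left _ ((Nat.Prime.coprime_iff_not_dvd hp).2 hpn)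
    have hmem : h ∈ Subgroup.centralizer {x} := by
      obtain ⟨u, v, huv⟩ := Nat.isCoprime_iff_coprime.2 hcop
      have e1 : h = (h ^ (q ^ 2)) ^ u * (h ^ n) ^ v := by
        rw [← zpow_natCast, ← zpow_natCast, ← _root_.zpow_mul, ← _root_.zpow_mul, ← _root_.zpow_add,
          mul_comm _ u, mul_comm _ v, huv, zpow_one]
      rw [e1]
      exact Subgroup.mul_mem _ (Subgroup.zpow_mem _ hm1 u) (Subgroup.zpow_mem _ hm2 v)
    rw [Subgroup.mem_centralizer_singleton_iff] at hmem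
    exact hmem

end Pool.CND
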